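import Pool.Agent.Lib.MP_20e20b_gt.Sharp

/-!
# Q1 of MP_20e20b_gt for algebraic (arborescent) link diagrams
-/

set_option autoImplicit false

namespace Pool.Agent.Results.MP_20e20b_gt.AlgebraicDiagrams

open Pool.Agent.Lib.MP_20e20b_gt Real

/-- For every algebraic link diagram `D` (the closure of an algebraic tangle diagram `X`) with `N`
crossings one has `2 π log μ(D) / N ≤ 2 π log φ < v_oct`, where `φ` is the golden ratio; and for
every `N ≥ 1` the largest value of `∑ |a_i|` over all algebraic diagrams with `N` crossings is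
the Fibonacci number `F_(N+1)`. -/
theorem result :
    (∀ X : Tangle, 2 * π * Real.log (mu X) / crossings X ≤ 2 * π * Real.log goldenRatio) ∧
    2 * π * Real.log goldenRatio < vOct ∧
    (∀ N : ℕ, 1 ≤ N → IsGreatest {m : ℕ | ∃ X : Tangle, crossings X = N ∧
      coefSum (closure X) = m} (Nat.fib (N + 1))) :=
  ⟨density, golden_lt_vOct, isGreatest_coefSum⟩

end Pool.Agent.Results.MP_20e20b_gt.AlgebraicDiagrams
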