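import Pool.Agent.Lib.TDisc.FinD

/-!
# MP_20e20b_gt: the coefficient bound for all connected link diagrams
-/

set_option autoImplicit false

namespace Pool.Agent.Results.MP_20e20b_gt.AllDiagrams

open Pool.Agent.Lib.MP_20e20b_gt Pool.Agent.Lib.TDen Real

/-- For every connected link diagram `D` with `N` crossings: `∑ |a_i| ≤ 5 * 1.8212^(N-4)` if
`N ≥ 4`, and consequently `2 π log μ(D) / N < 3.767` (`N ≥ 1`). -/
theorem result (D : Diagram) :
    (4 ≤ D.crossings →
      (coefSum D.bracket : ℝ) ≤ 5 * (4553 / 2500 : ℝ) ^ (D.crossings - 4)) ∧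
    (1 ≤ D.crossings → 2 * π * Real.log D.mu / D.crossings < 3.767) :=
  ⟨Pool.Agent.Lib.TDisc.coefSum_leD D, Pool.Agent.Lib.TDisc.density_allD D⟩

end Pool.Agent.Results.MP_20e20b_gt.AllDiagrams
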