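import Pool.Agent.Lib.TDisc.FinSpan

/-!
# MP_20e20b_gt: Q1 for at most 174 crossings, and for more if the span is large
-/

set_option autoImplicit false

namespace Pool.Agent.Results.MP_20e20b_gt.CrossingsAndSpan

open Pool.Agent.Lib.MP_20e20b_gt Pool.Agent.Lib.TDen Real

/-- For every connected link diagram `D` with `N ≥ 1` crossings whose Jones polynomial has span
`d = spanA / 4`: if `N ≤ max (174, 48 + 60.9 log (d + 1))`, then `2 π log μ(D) / N ≤ v_oct`. -/
theorem result (D : Diagram) (h1 : 1 ≤ D.crossings)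
    (h2 : (D.crossings : ℝ) ≤ max 174 (48 + 60.9 * Real.log ((spanA D.bracket : ℝ) / 4 + 1))) :
    2 * π * Real.log D.mu / D.crossings ≤ vOct := by
  refine Pool.Agent.Lib.TDisc.density_span D h1 ?_
  rcases le_max_iff.mp h2 with h | h
  · exact Or.inl (by exact_mod_cast h)
  · exact Or.inr h

end Pool.Agent.Results.MP_20e20b_gt.CrossingsAndSpan
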