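import Pool.Agent.Lib.TWt.GenT

/-!
# MP_20e20b_gt: link diagrams that reduce to few crossings
-/

set_option autoImplicit false

namespace Pool.Agent.Results.MP_20e20b_gt.TangleReduction

open Pool.Agent.Lib.MP_20e20b_gt Pool.Agent.Lib.TDen Pool.Agent.Lib.TWt Real

/-- Let the connected link diagram `D` with `N` crossings reduce to `n` crossings (`Red D A B`,
`n = |D.rest A B|`): in each step two crossings that meet the same two shaded, or the same two
unshaded, regions of the current diagram are merged into one. Then
`∑ |a_i| ≤ 1.8212^n * 1.657^(N-n)`, and `2 π log μ(D) / N ≤ v_oct` if `n ≤ 0.82 N`. -/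
theorem result (D : Diagram) (A B : Finset D.E) (h : Red D A B) :
    (coefSum D.bracket : ℝ) ≤ (4553 / 2500 : ℝ) ^ (D.rest A B).card *
      (1657 / 1000) ^ (D.crossings - (D.rest A B).card) ∧
    (1 ≤ D.crossings → 100 * (D.rest A B).card ≤ 82 * D.crossings →
      2 * π * Real.log D.mu / D.crossings ≤ vOct) :=
  ⟨coefSum_redT h, fun h1 hn => density_redT h1 h hn⟩

end Pool.Agent.Results.MP_20e20b_gt.TangleReduction
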